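import Mathlib

/-! Two-sided upper conical density for non-atomic measures. -/

set_option autoImplicit false
open MeasureTheory Metric Set Filter Topology
open scoped ENNReal

namespace Pool.Agent.Results.MP_acc68d_an.TwoSidedCone

/-- The set `H(x, θ, β)` of all `y` with `(y - x) · θ > β |y - x|`. -/
def H {n : ℕ} (x θ : EuclideanSpace ℝ (Fin n)) (β : ℝ) : Set (EuclideanSpace ℝ (Fin n)) :=
  {y | β * ‖y - x‖ < inner ℝ (y - x) θ}

/-- The truncated one-sided cone `X⁺(x, r, θ, α) = B(x, r) ∩ H(x, θ, (1 - α²)^{1/2})`. -/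
def Xplus {n : ℕ} (x : EuclideanSpace ℝ (Fin n)) (r : ℝ) (θ : EuclideanSpace ℝ (Fin n)) (α : ℝ) :
    Set (EuclideanSpace ℝ (Fin n)) :=
  closedBall x r ∩ H x θ (Real.sqrt (1 - α ^ 2))

theorem dirs {n : ℕ} (β : ℝ) (hβ : β < 1) :
    ∃ T : Finset (EuclideanSpace ℝ (Fin n)), (∀ θ ∈ T, ‖θ‖ = 1) ∧
      ∀ v : EuclideanSpace ℝ (Fin n), v ≠ 0 → ∃ θ ∈ T, β * ‖v‖ < inner ℝ v θ := by
  obtain ⟨T, hT, hc⟩ := (isCompact_sphere (0 : EuclideanSpace ℝ (Fin n)) 1).elim_nhds_subcover
    (fun θ => {v | β < inner ℝ v θ}) (by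
      intro θ hθ
      refine (isOpen_lt continuous_const (by fun_prop)).mem_nhds ?_
      have h1 : ‖θ‖ = 1 := by simpa using hθ
      show β < inner ℝ θ θ
      rw [real_inner_self_eq_norm_sq, h1]
      simpa using hβ)
  refine ⟨T, fun θ hθ => by simpa using hT θ hθ, fun v hv => ?_⟩
  have hv' : 0 < ‖v‖ := norm_pos_iff.mpr hv
  have h2 : (‖v‖⁻¹ • v) ∈ sphere (0 : EuclideanSpace ℝ (Fin n)) 1 := by
    simp [norm_smul, hv'.ne']
  have h3 := hc h2
  simp only [mem_iUnion] at h3
  obtain ⟨θ, hθ, h4⟩ := h3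
  refine ⟨θ, hθ, ?_⟩
  have h5 : β < inner ℝ (‖v‖⁻¹ • v) θ := h4
  rw [real_inner_smul_left] at h5
  have h6 := mul_lt_mul_of_pos_right h5 hv'
  have h7 : ‖v‖⁻¹ * inner ℝ v θ * ‖v‖ = inner ℝ v θ := by
    field_simp
  rwa [h7] at h6

/-- At almost every point there are arbitrarily small doubling radii. -/
theorem doubling {n : ℕ} (μ : Measure (EuclideanSpace ℝ (Fin n))) [IsFiniteMeasure μ] :
    ∀ᵐ x ∂μ, ∀ ε : ℝ, 0 < ε → ∃ r : ℝ, 0 < r ∧ r < ε ∧
      μ (closedBall x (3 * r)) ≤ 3 ^ (n + 1) * μ (closedBall x r) := by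
  have h1 := Besicovitch.ae_tendsto_rnDeriv (volume : Measure (EuclideanSpace ℝ (Fin n))) μ
  have h2 : ∀ᵐ x ∂μ, (volume : Measure (EuclideanSpace ℝ (Fin n))).rnDeriv μ x < ∞ :=
    Measure.rnDeriv_lt_top _ _
  filter_upwards [h1, h2] with x hx1 hx2 ε hε
  by_contra hcon
  push Not at hcon
  obtain ⟨K, hK1, hK2⟩ := ENNReal.lt_iff_exists_nnreal_btwn.mp hx2
  have h3 : ∀ᶠ r in 𝓝[>] (0 : ℝ), volume (closedBall x r) / μ (closedBall x r) < K :=
    hx1.eventually_lt_const hK1
  rw [eventually_nhdsWithin_iff, Metric.eventually_nhds_iff] at h3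
  obtain ⟨δ, hδ, h3⟩ := h3
  -- base radius
  set s := min ε δ / 2 with hs
  have hs0 : 0 < s := by positivity
  have hsε : s < ε := by
    have := min_le_left ε δ
    have h := lt_min hε hδ
    linarith
  have hsδ : s < δ := by
    have := min_le_right ε δ
    have h := lt_min hε hδ
    linarith
  have hle : ∀ k : ℕ, (1 / 3 : ℝ) ^ k * s ≤ s := by
    intro k
    have : (1 / 3 : ℝ) ^ k ≤ 1 := pow_le_one₀ (by norm_num) (by norm_num)
    nlinarith
  have hpos : ∀ k : ℕ, 0 < (1 / 3 : ℝ) ^ k * s := fun k => by positivity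
  have hdec : ∀ k : ℕ, (3 : ℝ≥0∞) ^ ((n + 1) * k) * μ (closedBall x ((1 / 3 : ℝ) ^ k * s)) ≤
      μ (closedBall x s) := by
    intro k
    induction k with
    | zero => simp
    | succ k ih =>
      have h := hcon ((1 / 3 : ℝ) ^ (k + 1) * s) (hpos _) (lt_of_le_of_lt (hle _) hsε)
      have e1 : 3 * ((1 / 3 : ℝ) ^ (k + 1) * s) = (1 / 3 : ℝ) ^ k * s := by ring
      rw [e1] at h
      calc (3 : ℝ≥0∞) ^ ((n + 1) * (k + 1)) * μ (closedBall x ((1 / 3 : ℝ) ^ (k + 1) * s))
          = 3 ^ ((n + 1) * k) * (3 ^ (n + 1) * μ (closedBall x ((1 / 3 : ℝ) ^ (k + 1) * s))) := by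
            rw [← mul_assoc, ← pow_add]; ring_nf
        _ ≤ 3 ^ ((n + 1) * k) * μ (closedBall x ((1 / 3 : ℝ) ^ k * s)) := by gcongr
        _ ≤ _ := ih
  have hvol : ∀ k : ℕ, volume (closedBall x ((1 / 3 : ℝ) ^ k * s)) =
      ENNReal.ofReal (((1 / 3 : ℝ) ^ k) ^ n) * volume (closedBall (0 : EuclideanSpace ℝ (Fin n)) s) := by
    intro k
    rw [Measure.addHaar_closedBall_mul_of_pos _ x (by positivity) s]
    simp
  have hfin : μ (closedBall x s) ≠ ∞ := measure_ne_top _ _
  have hv0 : 0 < volume (closedBall (0 : EuclideanSpace ℝ (Fin n)) s) :=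
    measure_closedBall_pos _ _ hs0
  have hvt : volume (closedBall (0 : EuclideanSpace ℝ (Fin n)) s) ≠ ∞ :=
    measure_closedBall_lt_top.ne
  have hmain : ∀ k : ℕ, (3 : ℝ≥0∞) ^ k * volume (closedBall (0 : EuclideanSpace ℝ (Fin n)) s) ≤
      K * μ (closedBall x s) := by
    intro k
    have h := h3 (y := (1 / 3 : ℝ) ^ k * s) (by
      rw [Real.dist_eq, sub_zero, abs_of_pos (hpos k)]
      exact lt_of_le_of_lt (hle k) hsδ) (hpos k)
    have h' : volume (closedBall x ((1 / 3 : ℝ) ^ k * s)) ≤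
        K * μ (closedBall x ((1 / 3 : ℝ) ^ k * s)) := by
      have := (ENNReal.div_le_iff_le_mul (Or.inr (by simp)) (Or.inl (measure_ne_top _ _))).mp h.le
      exact this
    rw [hvol] at h'
    have e2 : (3 : ℝ≥0∞) ^ (n * k) * ENNReal.ofReal (((1 / 3 : ℝ) ^ k) ^ n) = 1 := by
      rw [show (3 : ℝ≥0∞) ^ (n * k) = ENNReal.ofReal ((3 : ℝ) ^ (n * k)) by
        rw [ENNReal.ofReal_pow (by norm_num)]; simp]
      rw [← ENNReal.ofReal_mul (by positivity), ← pow_mul, mul_comm k n, ← mul_pow]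
      norm_num
    calc (3 : ℝ≥0∞) ^ k * volume (closedBall (0 : EuclideanSpace ℝ (Fin n)) s)
        = 3 ^ ((n + 1) * k) * (ENNReal.ofReal (((1 / 3 : ℝ) ^ k) ^ n) *
            volume (closedBall (0 : EuclideanSpace ℝ (Fin n)) s)) := by
          rw [show (n + 1) * k = k + n * k by ring, pow_add, mul_assoc, ← mul_assoc ((3 : ℝ≥0∞) ^ (n * k)),
            e2, one_mul]
      _ ≤ 3 ^ ((n + 1) * k) * (K * μ (closedBall x ((1 / 3 : ℝ) ^ k * s))) := by gcongr
      _ = K * (3 ^ ((n + 1) * k) * μ (closedBall x ((1 / 3 : ℝ) ^ k * s))) := by ring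
      _ ≤ K * μ (closedBall x s) := by gcongr; exact hdec k
  -- contradiction
  have hKm : (K : ℝ≥0∞) * μ (closedBall x s) ≠ ∞ := ENNReal.mul_ne_top (by simp) hfin
  have h8 : Tendsto (fun k : ℕ => (3 : ℝ≥0∞) ^ k * volume (closedBall (0 : EuclideanSpace ℝ (Fin n)) s))
      atTop (𝓝 (∞ * volume (closedBall (0 : EuclideanSpace ℝ (Fin n)) s))) :=
    ENNReal.Tendsto.mul_const (ENNReal.tendsto_pow_atTop_nhds_top_iff.mpr (by norm_num)) (Or.inl (by simp))
  rw [ENNReal.top_mul hv0.ne'] at h8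
  have h9 := le_of_tendsto' h8 hmain
  exact hKm (top_le_iff.mp h9)

theorem meas_S {n : ℕ} (r β : ℝ) (θ : EuclideanSpace ℝ (Fin n)) :
    MeasurableSet {p : EuclideanSpace ℝ (Fin n) × EuclideanSpace ℝ (Fin n) |
      dist p.2 p.1 ≤ 2 * r ∧ β * ‖p.2 - p.1‖ < inner ℝ (p.2 - p.1) θ} := by
  have h1 : MeasurableSet {p : EuclideanSpace ℝ (Fin n) × EuclideanSpace ℝ (Fin n) |
      dist p.2 p.1 ≤ 2 * r} := measurableSet_le (by fun_prop) measurable_const
  have h2 : MeasurableSet {p : EuclideanSpace ℝ (Fin n) × EuclideanSpace ℝ (Fin n) |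
      β * ‖p.2 - p.1‖ < inner ℝ (p.2 - p.1) θ} := measurableSet_lt (by fun_prop) (by fun_prop)
  exact h1.inter h2

theorem core {n : ℕ} (T : Finset (EuclideanSpace ℝ (Fin n))) (β : ℝ)
    (hT : ∀ v : EuclideanSpace ℝ (Fin n), v ≠ 0 → ∃ θ ∈ T, β * ‖v‖ < inner ℝ v θ)
    (μ : Measure (EuclideanSpace ℝ (Fin n))) [IsFiniteMeasure μ] [NullSingletonClass μ]
    (x0 : EuclideanSpace ℝ (Fin n)) (r : ℝ) (K : ℝ≥0∞) (G : Set (EuclideanSpace ℝ (Fin n)))
    (hG : ∀ x ∈ G ∩ closedBall x0 r, ∀ θ ∈ T,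
      min (μ (closedBall x (2 * r) ∩ H x θ β)) (μ (closedBall x (2 * r) ∩ H x (-θ) β)) ≤ K) :
    μ (G ∩ closedBall x0 r) ≤ 2 ^ T.card * (T.card * K) := by
  classical
  set S : EuclideanSpace ℝ (Fin n) → Set (EuclideanSpace ℝ (Fin n) × EuclideanSpace ℝ (Fin n)) :=
    fun θ => {p | dist p.2 p.1 ≤ 2 * r ∧ β * ‖p.2 - p.1‖ < inner ℝ (p.2 - p.1) θ} with hS
  have hSm : ∀ θ, MeasurableSet (S θ) := fun θ => meas_S r β θ
  have hsec : ∀ x θ, Prod.mk x ⁻¹' (S θ) = closedBall x (2 * r) ∩ H x θ β := by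
    intro x θ
    ext y
    simp [hS, H, mem_closedBall]
  have hfm : ∀ θ, Measurable fun x => μ (closedBall x (2 * r) ∩ H x θ β) := by
    intro θ
    have := measurable_measure_prodMk_left (ν := μ) (hSm θ)
    simpa only [hsec] using this
  set A : Finset (EuclideanSpace ℝ (Fin n)) → Set (EuclideanSpace ℝ (Fin n)) := fun U =>
    closedBall x0 r ∩ ⋂ θ ∈ T, {x | μ (closedBall x (2 * r) ∩ H x (if θ ∈ U then θ else -θ) β) ≤ K}
    with hA
  have hAm : ∀ U, MeasurableSet (A U) := by
    intro U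
    refine measurableSet_closedBall.inter (Finset.measurableSet_biInter _ fun θ _ => ?_)
    exact measurableSet_le (hfm _) measurable_const
  have hcov : G ∩ closedBall x0 r ⊆ ⋃ U ∈ T.powerset, A U := by
    intro x hx
    simp only [mem_iUnion]
    refine ⟨T.filter fun θ => μ (closedBall x (2 * r) ∩ H x θ β) ≤ K, ?_, hx.2, ?_⟩
    · exact Finset.mem_powerset.mpr (Finset.filter_subset _ _)
    · simp only [mem_iInter]
      intro θ hθ
      by_cases h : μ (closedBall x (2 * r) ∩ H x θ β) ≤ K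
      · show μ (closedBall x (2 * r) ∩ H x (if θ ∈ T.filter fun θ =>
          μ (closedBall x (2 * r) ∩ H x θ β) ≤ K then θ else -θ) β) ≤ K
        rw [if_pos (Finset.mem_filter.mpr ⟨hθ, h⟩)]
        exact h
      · have hne : ¬ (θ ∈ T.filter fun θ => μ (closedBall x (2 * r) ∩ H x θ β) ≤ K) :=
          fun hh => h (Finset.mem_filter.mp hh).2
        show μ (closedBall x (2 * r) ∩ H x (if θ ∈ T.filter fun θ =>
          μ (closedBall x (2 * r) ∩ H x θ β) ≤ K then θ else -θ) β) ≤ K
        rw [if_neg hne]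
        have := hG x hx θ hθ
        rcases min_le_iff.mp this with h' | h'
        · exact absurd h' h
        · exact h'
  have hdiag : (μ.prod μ) {p | p.1 = p.2} = 0 := by
    have hm : MeasurableSet {p : EuclideanSpace ℝ (Fin n) × EuclideanSpace ℝ (Fin n) | p.1 = p.2} :=
      measurableSet_eq_fun measurable_fst measurable_snd
    rw [Measure.prod_apply hm]
    simp only [preimage_ofPred_eq]
    simp
  have hAb : ∀ U, μ (A U) ≤ T.card * K := by
    intro U
    by_cases h0 : μ (A U) = 0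
    · rw [h0]; exact zero_le
    have h1 : (A U) ×ˢ (A U) ⊆ {p | p.1 = p.2} ∪ ⋃ θ ∈ T, ((A U) ×ˢ (A U) ∩ S θ) := by
      rintro ⟨x, y⟩ ⟨hx, hy⟩
      by_cases hxy : x = y
      · exact Or.inl hxy
      · right
        obtain ⟨θ, hθ, h2⟩ := hT (y - x) (sub_ne_zero.mpr (Ne.symm hxy))
        simp only [mem_iUnion]
        refine ⟨θ, hθ, ⟨hx, hy⟩, ?_, h2⟩
        have h3 := mem_closedBall.mp hx.1
        have h4 := mem_closedBall.mp hy.1
        calc dist y x ≤ dist y x0 + dist x x0 := dist_triangle_right _ _ _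
          _ ≤ 2 * r := by linarith
    have h2 : ∀ θ ∈ T, (μ.prod μ) ((A U) ×ˢ (A U) ∩ S θ) ≤ μ (A U) * K := by
      intro θ hθ
      have hm : MeasurableSet ((A U) ×ˢ (A U) ∩ S θ) := ((hAm U).prod (hAm U)).inter (hSm θ)
      by_cases hU : θ ∈ U
      · rw [Measure.prod_apply hm]
        calc ∫⁻ x, μ (Prod.mk x ⁻¹' ((A U) ×ˢ (A U) ∩ S θ)) ∂μ
            ≤ ∫⁻ x, (A U).indicator (fun _ => K) x ∂μ := by
              apply lintegral_mono
              intro x
              by_cases hx : x ∈ A U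
              · rw [indicator_of_mem hx]
                have h5 := hx.2
                simp only [mem_iInter] at h5
                have h6 := h5 θ hθ
                rw [if_pos hU] at h6
                refine le_trans (measure_mono ?_) h6
                rw [← hsec]
                intro y hy
                exact hy.2
              · rw [indicator_of_notMem hx]
                have : Prod.mk x ⁻¹' ((A U) ×ˢ (A U) ∩ S θ) = ∅ := by
                  ext y
                  simp [hx]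
                show μ (Prod.mk x ⁻¹' ((A U) ×ˢ (A U) ∩ S θ)) ≤ 0
                rw [this]
                simp
          _ = μ (A U) * K := by
              rw [lintegral_indicator (hAm U), setLIntegral_const, mul_comm]
      · rw [Measure.prod_apply_symm hm]
        calc ∫⁻ y, μ ((fun x => (x, y)) ⁻¹' ((A U) ×ˢ (A U) ∩ S θ)) ∂μ
            ≤ ∫⁻ x, (A U).indicator (fun _ => K) x ∂μ := by
              apply lintegral_mono
              intro y
              by_cases hy : y ∈ A U
              · rw [indicator_of_mem hy]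
                have h5 := hy.2
                simp only [mem_iInter] at h5
                have h6 := h5 θ hθ
                rw [if_neg hU] at h6
                refine le_trans (measure_mono ?_) h6
                intro x hx
                obtain ⟨_, hx1, hx2⟩ := hx
                refine ⟨?_, ?_⟩
                · rw [mem_closedBall, dist_comm]
                  exact hx1
                · show β * ‖x - y‖ < inner ℝ (x - y) (-θ)
                  rw [inner_neg_right, ← inner_neg_left, neg_sub, norm_sub_rev]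
                  exact hx2
              · rw [indicator_of_notMem hy]
                have : (fun x => (x, y)) ⁻¹' ((A U) ×ˢ (A U) ∩ S θ) = ∅ := by
                  ext x
                  simp [hy]
                show μ ((fun x => (x, y)) ⁻¹' ((A U) ×ˢ (A U) ∩ S θ)) ≤ 0
                rw [this]
                simp
          _ = μ (A U) * K := by
              rw [lintegral_indicator (hAm U), setLIntegral_const, mul_comm]
    have h3 : μ (A U) * μ (A U) ≤ μ (A U) * (T.card * K) := by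
      calc μ (A U) * μ (A U) = (μ.prod μ) ((A U) ×ˢ (A U)) := (Measure.prod_prod _ _).symm
        _ ≤ (μ.prod μ) ({p | p.1 = p.2} ∪ ⋃ θ ∈ T, ((A U) ×ˢ (A U) ∩ S θ)) := measure_mono h1
        _ ≤ (μ.prod μ) {p | p.1 = p.2} + (μ.prod μ) (⋃ θ ∈ T, ((A U) ×ˢ (A U) ∩ S θ)) :=
            measure_union_le _ _
        _ ≤ 0 + ∑ θ ∈ T, (μ.prod μ) ((A U) ×ˢ (A U) ∩ S θ) := by
            rw [hdiag]
            gcongr
            exact measure_biUnion_finset_le _ _
        _ ≤ 0 + ∑ θ ∈ T, μ (A U) * K := by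
            gcongr with θ hθ
            exact h2 θ hθ
        _ = μ (A U) * (T.card * K) := by
            rw [Finset.sum_const, nsmul_eq_mul]; ring
    exact (ENNReal.mul_le_mul_iff_right h0 (measure_ne_top _ _)).mp h3
  calc μ (G ∩ closedBall x0 r) ≤ μ (⋃ U ∈ T.powerset, A U) := measure_mono hcov
    _ ≤ ∑ U ∈ T.powerset, μ (A U) := measure_biUnion_finset_le _ _
    _ ≤ ∑ U ∈ T.powerset, (T.card * K : ℝ≥0∞) := by
        gcongr with U hU
        exact hAb U
    _ = 2 ^ T.card * (T.card * K) := by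
        rw [Finset.sum_const, Finset.card_powerset, nsmul_eq_mul]
        push_cast
        ring

/-- For every dimension and every opening there is a constant for which the two-sided upper conical
density property holds for all non-atomic finite Borel measures. -/
theorem result (n : ℕ) (_hn : 1 ≤ n) (α : ℝ) (h0 : 0 < α) (_h1 : α ≤ 1) :
    ∃ c : ℝ, 0 < c ∧ ∀ μ : Measure (EuclideanSpace ℝ (Fin n)), IsFiniteMeasure μ →
      (∀ x, μ {x} = 0) →
      ∀ᵐ x ∂μ, ∃ θ : EuclideanSpace ℝ (Fin n), ‖θ‖ = 1 ∧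
        ENNReal.ofReal c < limsup (fun r : ℝ =>
          min (μ (Xplus x r θ α)) (μ (Xplus x r (-θ) α)) / μ (closedBall x r)) (𝓝[>] 0) := by
  set β := Real.sqrt (1 - α ^ 2) with hβ
  have hβ1 : β < 1 := by
    rw [hβ, Real.sqrt_lt' one_pos]
    nlinarith [pow_pos h0 2]
  obtain ⟨T, hT1, hT2⟩ := dirs (n := n) β hβ1
  set M := T.card with hM
  set c : ℝ := 1 / (2 ^ (M + 3) * (M + 1) * 3 ^ (n + 1)) with hc
  have hc0 : 0 < c := by positivity
  refine ⟨c, hc0, fun μ hμ hat => ?_⟩
  have : NullSingletonClass μ := ⟨hat⟩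
  set c' : ℝ≥0∞ := ENNReal.ofReal (2 * c) with hc'
  set G : ℕ → Set (EuclideanSpace ℝ (Fin n)) := fun k => {x | ∀ r : ℝ, 0 < r → r < 1 / ((k : ℝ) + 1) →
    ∀ θ ∈ T, min (μ (closedBall x r ∩ H x θ β)) (μ (closedBall x r ∩ H x (-θ) β)) ≤
      c' * μ (closedBall x r)} with hG
  have hGk : ∀ k, μ (G k) = 0 := by
    intro k
    have h1 := Besicovitch.ae_tendsto_measure_inter_div μ (G k)
    have h2 : ∀ᵐ x ∂(μ.restrict (G k)), ∀ ε : ℝ, 0 < ε → ∃ r : ℝ, 0 < r ∧ r < ε ∧
      μ (closedBall x (3 * r)) ≤ 3 ^ (n + 1) * μ (closedBall x r) := ae_restrict_of_ae (doubling μ)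
    have h3 : ∀ᵐ x ∂(μ.restrict (G k)), False := by
      filter_upwards [h1, h2] with x hx1 hx2
      have h4 : ∀ᶠ r in 𝓝[>] (0 : ℝ), (1 / 4 : ℝ≥0∞) <
          μ (G k ∩ closedBall x r) / μ (closedBall x r) := by
        apply hx1.eventually_const_lt
        rw [ENNReal.div_lt_iff (Or.inl (by simp)) (Or.inl (by simp))]
        norm_num
      rw [eventually_nhdsWithin_iff, Metric.eventually_nhds_iff] at h4
      obtain ⟨δ, hδ, h4⟩ := h4
      obtain ⟨r, hr0, hr1, hr2⟩ := hx2 (min δ (1 / (2 * ((k : ℝ) + 1)))) (by positivity)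
      have hrδ : r < δ := lt_of_lt_of_le hr1 (min_le_left _ _)
      have hrk : 2 * r < 1 / ((k : ℝ) + 1) := by
        have := lt_of_lt_of_le hr1 (min_le_right _ _)
        have h5 : (1 : ℝ) / (2 * ((k : ℝ) + 1)) = 1 / ((k : ℝ) + 1) / 2 := by
          field_simp
        rw [h5] at this
        linarith
      have h5 := h4 (y := r) (by rwa [Real.dist_eq, sub_zero, abs_of_pos hr0]) hr0
      have h6 := core T β hT2 μ x r (c' * μ (closedBall x (3 * r))) (G k) (by
        intro y hy θ hθ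
        refine le_trans (hy.1 (2 * r) (by positivity) hrk θ hθ) ?_
        gcongr
        apply closedBall_subset_closedBall'
        have := mem_closedBall.mp hy.2
        linarith)
      have h7 : μ (G k ∩ closedBall x r) ≤ 1 / 4 * μ (closedBall x r) := by
        calc μ (G k ∩ closedBall x r) ≤ 2 ^ T.card * (T.card * (c' * μ (closedBall x (3 * r)))) := h6
          _ ≤ 2 ^ T.card * (T.card * (c' * (3 ^ (n + 1) * μ (closedBall x r)))) := by gcongr
          _ = (2 ^ M * M * c' * 3 ^ (n + 1)) * μ (closedBall x r) := by rw [hM]; ring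
          _ ≤ 1 / 4 * μ (closedBall x r) := by
              gcongr
              have e1 : (2 ^ M * M * c' * 3 ^ (n + 1) : ℝ≥0∞) =
                  ENNReal.ofReal (2 ^ M * M * (2 * c) * 3 ^ (n + 1)) := by
                rw [ENNReal.ofReal_mul (by positivity), ENNReal.ofReal_mul (by positivity),
                  ENNReal.ofReal_mul (by positivity), ENNReal.ofReal_pow (by norm_num),
                  ENNReal.ofReal_pow (by norm_num)]
                simp [hc']
              rw [e1]
              have e2 : (1 / 4 : ℝ≥0∞) = ENNReal.ofReal (1 / 4) := by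
                rw [ENNReal.ofReal_div_of_pos (by norm_num)]
                simp
              rw [e2]
              apply ENNReal.ofReal_le_ofReal
              rw [hc]
              have e3 : (2 : ℝ) ^ M * M * (2 * (1 / (2 ^ (M + 3) * (M + 1) * 3 ^ (n + 1)))) * 3 ^ (n + 1) =
                  (1 / 4) * (M / (M + 1)) := by
                field_simp
                ring
              rw [e3]
              have e4 : (M : ℝ) / (M + 1) ≤ 1 := by
                rw [div_le_one (by positivity)]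
                linarith
              linarith
      have h8 : μ (G k ∩ closedBall x r) / μ (closedBall x r) ≤ 1 / 4 := ENNReal.div_le_of_le_mul h7
      exact absurd h5 (not_lt.mpr h8)
    have h4 : μ.restrict (G k) = 0 := by
      rw [← ae_eq_bot]
      exact Filter.eventually_false_iff_eq_bot.mp h3
    have := congrArg (fun m : Measure _ => m univ) h4
    simpa using this
  have hU : μ (⋃ k, G k) = 0 := measure_iUnion_null hGk
  rw [ae_iff]
  refine measure_mono_null ?_ hU
  intro x hx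
  simp only [mem_ofPred_eq, not_exists, not_and, not_lt] at hx
  have h1 : ∀ᶠ r in 𝓝[>] (0 : ℝ), ∀ θ ∈ T, min (μ (Xplus x r θ α)) (μ (Xplus x r (-θ) α)) /
      μ (closedBall x r) < c' := by
    rw [Filter.eventually_all_finset]
    intro θ hθ
    refine Filter.eventually_lt_of_limsup_lt (lt_of_le_of_lt (hx θ (hT1 θ hθ)) ?_) (by isBoundedDefault)
    exact (ENNReal.ofReal_lt_ofReal_iff (by positivity)).mpr (by linarith)
  rw [eventually_nhdsWithin_iff, Metric.eventually_nhds_iff] at h1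
  obtain ⟨ε, hε, h1⟩ := h1
  obtain ⟨k, hk⟩ := exists_nat_one_div_lt hε
  refine mem_iUnion.mpr ⟨k, ?_⟩
  intro r hr0 hr1 θ hθ
  have h2 := (h1 (y := r) (by rw [Real.dist_eq, sub_zero, abs_of_pos hr0]; linarith) hr0 θ hθ).le
  by_cases hz : μ (closedBall x r) = 0
  · refine le_trans (min_le_left _ _) (le_trans (measure_mono inter_subset_left) ?_)
    rw [hz]
    exact zero_le
  · exact (ENNReal.div_le_iff hz (measure_ne_top _ _)).mp h2

end Pool.Agent.Results.MP_acc68d_an.TwoSidedCone
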